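import Mathlib

/-!
# Extreme automorphism-invariant positive definite functions not vanishing at a generator

For every rank `r ≥ 2` and every prime `p`, let `τ` be the function on the free group `F_r` equal
to `1` on the kernel of the reduction `F_r → (ℤ/p)^r` and to `-1/(p^r - 1)` off that kernel.
We show that `τ` is an extreme point of the set of normalised positive definite functions on
`F_r` invariant under all automorphisms of `F_r`.
-/

namespace Pool.Agent.Results.MP_4640da_an.ExtremeNonvanishing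

open scoped ComplexOrder

noncomputable section

/-- Positive definite functions on a group. -/
def IsPosDef {G : Type*} [Group G] (φ : G → ℂ) : Prop :=
  ∀ (n : ℕ) (g : Fin n → G) (c : Fin n → ℂ),
    0 ≤ ∑ i, ∑ j, c i * (starRingEnd ℂ) (c j) * φ ((g j)⁻¹ * g i)

/-- Normalised positive definite functions on `F_r` invariant under every automorphism. -/
def invPosDef (r : ℕ) : Set (FreeGroup (Fin r) → ℂ) :=
  {φ | IsPosDef φ ∧ φ 1 = 1 ∧ ∀ (α : FreeGroup (Fin r) ≃* FreeGroup (Fin r)), φ ∘ α = φ}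

/-- The reduction homomorphism `F_r → (ℤ/p)^r`, written multiplicatively. -/
def red (r p : ℕ) : FreeGroup (Fin r) →* Multiplicative (Fin r → ZMod p) :=
  FreeGroup.lift (fun i => Multiplicative.ofAdd (Pi.single i 1))

/-- The function equal to `1` on the kernel of the reduction and `-1/(p^r-1)` off it. -/
def tau (r p : ℕ) : FreeGroup (Fin r) → ℂ :=
  open Classical in fun g => if red r p g = 1 then 1 else -1 / ((p : ℂ) ^ r - 1)

/-- Two test vectors. -/
theorem posDef_two {G : Type*} [Group G] {φ : G → ℂ} (hφ : IsPosDef φ) (h1 : φ 1 = 1) (n : G) :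
    0 ≤ 2 - (φ n + φ n⁻¹) := by
  have h := hφ 2 ![1, n] ![1, -1]
  simp [Fin.sum_univ_succ, h1] at h
  have e : (2 : ℂ) - (φ n + φ n⁻¹) = 1 + -φ n⁻¹ + (-φ n + 1) := by ring
  rw [e]
  exact h

theorem eq_zero_of_quad (z : ℂ) (hz : ∀ s : ℝ, 0 ≤ (s : ℂ) ^ 2 + s * z) : z = 0 := by
  have hre : z.re = 0 := by
    have h := (Complex.le_def.mp (hz (-z.re / 2))).1
    simp [pow_two] at h
    nlinarith [sq_nonneg z.re]
  have him : z.im = 0 := by
    have h := (Complex.le_def.mp (hz 1)).2
    simp at h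
    exact h.symm
  exact Complex.ext hre him

/-- If `φ n + φ n⁻¹ = 2` then `φ` is invariant under left multiplication by `n⁻¹`. -/
theorem posDef_inv {G : Type*} [Group G] {φ : G → ℂ} (hφ : IsPosDef φ) (h1 : φ 1 = 1) (n : G)
    (hn : φ n + φ n⁻¹ = 2) (h : G) : φ (n⁻¹ * h) = φ h := by
  have key : ∀ t : ℂ, 0 ≤ t * (starRingEnd ℂ) t + t * (φ h - φ (n⁻¹ * h))
      + (starRingEnd ℂ) t * (φ h⁻¹ - φ (h⁻¹ * n)) := by
    intro t
    have h2 := hφ 3 ![1, n, h] ![1, -1, t]
    simp [Fin.sum_univ_succ, h1] at h2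
    have e : t * (starRingEnd ℂ) t + t * (φ h - φ (n⁻¹ * h))
      + (starRingEnd ℂ) t * (φ h⁻¹ - φ (h⁻¹ * n)) = 2 - (φ n + φ n⁻¹) + (t * (starRingEnd ℂ) t + t * (φ h - φ (n⁻¹ * h))
      + (starRingEnd ℂ) t * (φ h⁻¹ - φ (h⁻¹ * n))) := by rw [hn]; ring
    rw [e]
    convert h2 using 1
    ring
  have h3 : (φ h - φ (n⁻¹ * h)) + (φ h⁻¹ - φ (h⁻¹ * n)) = 0 := by
    apply eq_zero_of_quad
    intro s
    have := key s
    rw [Complex.conj_ofReal] at this
    convert this using 1
    ring
  have h4 : Complex.I * ((φ h - φ (n⁻¹ * h)) - (φ h⁻¹ - φ (h⁻¹ * n))) = 0 := by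
    apply eq_zero_of_quad
    intro s
    have := key (s * Complex.I)
    rw [map_mul, Complex.conj_ofReal, Complex.conj_I] at this
    convert this using 1
    ring_nf
    rw [Complex.I_sq]
    ring
  have h5 : (φ h - φ (n⁻¹ * h)) - (φ h⁻¹ - φ (h⁻¹ * n)) = 0 := by
    rcases mul_eq_zero.mp h4 with h | h
    · exact absurd h Complex.I_ne_zero
    · exact h
  have h6 : 2 * (φ h - φ (n⁻¹ * h)) = 0 := by linear_combination h3 + h5
  have h7 : φ h - φ (n⁻¹ * h) = 0 := by
    rcases mul_eq_zero.mp h6 with h | h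
    · norm_num at h
    · exact h
  linear_combination -h7

/-- The reduction of a generator. -/
theorem red_of (r p : ℕ) (i : Fin r) :
    red r p (FreeGroup.of i) = Multiplicative.ofAdd (Pi.single i 1) := by
  simp [red]

/-- Every homomorphism from `F_r` to `(ℤ/p)^r` factors through the reduction. -/
theorem factor (r p : ℕ) (ψ : FreeGroup (Fin r) →* Multiplicative (Fin r → ZMod p)) :
    ∃ L : (Fin r → ZMod p) →ₗ[ZMod p] (Fin r → ZMod p), ∀ g,
      ψ g = Multiplicative.ofAdd (L (red r p g).toAdd) := by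
  refine ⟨∑ i, (LinearMap.proj i : (Fin r → ZMod p) →ₗ[ZMod p] ZMod p).smulRight
    (ψ (FreeGroup.of i)).toAdd, ?_⟩
  set L : (Fin r → ZMod p) →ₗ[ZMod p] (Fin r → ZMod p) :=
    ∑ i, (LinearMap.proj i : (Fin r → ZMod p) →ₗ[ZMod p] ZMod p).smulRight
    (ψ (FreeGroup.of i)).toAdd with hL
  have h : ψ = (AddMonoidHom.toMultiplicative L.toAddMonoidHom).comp (red r p) := by
    apply FreeGroup.ext_hom
    intro a
    simp only [MonoidHom.comp_apply, red_of]
    apply Multiplicative.toAdd.injective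
    simp only [hL, AddMonoidHom.toMultiplicative_apply_apply, toAdd_ofAdd,
      LinearMap.toAddMonoidHom_coe, LinearMap.sum_apply, LinearMap.smulRight_apply,
      LinearMap.proj_apply]
    rw [Finset.sum_eq_single a]
    · simp
    · intro b _ hb
      simp [hb]
    · simp
  intro g
  conv_lhs => rw [h]
  rfl

/-- The kernel of the reduction is invariant under automorphisms. -/
theorem red_aut (r p : ℕ) (α : FreeGroup (Fin r) ≃* FreeGroup (Fin r)) (g : FreeGroup (Fin r)) :
    red r p (α g) = 1 ↔ red r p g = 1 := by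
  constructor
  · intro h
    obtain ⟨L, hL⟩ := factor r p ((red r p).comp α.symm.toMonoidHom)
    have := hL (α g)
    rw [h] at this
    simpa using this
  · intro h
    obtain ⟨L, hL⟩ := factor r p ((red r p).comp α.toMonoidHom)
    have := hL g
    rw [h] at this
    simpa using this

/-- The function `tau` in terms of a finite quotient is positive definite. -/
theorem tau_posDef (r p : ℕ) [Fact p.Prime] (hr : 0 < r) : IsPosDef (tau r p) := by
  classical
  intro n g c
  have hp1 : 1 < p := (Fact.out : p.Prime).one_lt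
  have hm1 : 1 < (p : ℝ) ^ r := by
    have : (1 : ℝ) < p := by exact_mod_cast hp1
    exact one_lt_pow₀ this (by omega)
  set m : ℝ := (p : ℝ) ^ r - 1 with hm
  have hm0 : 0 < m := by linarith
  set q : Fin n → Multiplicative (Fin r → ZMod p) := fun i => red r p (g i) with hq
  set C : Multiplicative (Fin r → ZMod p) → ℂ := fun v => ∑ i, if q i = v then c i else 0 with hC
  have hcard : (Fintype.card (Multiplicative (Fin r → ZMod p)) : ℝ) = (p : ℝ) ^ r := by
    simp [ZMod.card]
  have htau : ∀ i j, tau r p ((g j)⁻¹ * g i) = (1 + 1 / (m : ℂ)) * (if q i = q j then 1 else 0)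
      - 1 / (m : ℂ) := by
    intro i j
    have h1 : red r p ((g j)⁻¹ * g i) = 1 ↔ q i = q j := by
      rw [map_mul, map_inv, inv_mul_eq_one]
      exact eq_comm
    unfold tau
    simp only [h1, hm]
    split_ifs
    · push_cast; ring
    · push_cast; ring
  have hsumC : ∑ v, C v = ∑ i, c i := by
    simp only [hC]
    rw [Finset.sum_comm]
    simp
  have hsq : ∑ i, ∑ j, c i * (starRingEnd ℂ) (c j) * (if q i = q j then (1 : ℂ) else 0)
      = ∑ v, C v * (starRingEnd ℂ) (C v) := by
    simp only [hC, map_sum, Finset.sum_mul_sum]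
    symm
    rw [Finset.sum_comm]
    refine Finset.sum_congr rfl (fun i _ => ?_)
    rw [Finset.sum_comm]
    refine Finset.sum_congr rfl (fun j _ => ?_)
    by_cases h : q i = q j
    · rw [if_pos h, Finset.sum_eq_single (q i)]
      · simp [h]
      · intro b _ hb
        rw [if_neg (fun h1 => hb h1.symm), zero_mul]
      · simp
    · rw [if_neg h, mul_zero]
      apply Finset.sum_eq_zero
      intro v _
      by_cases h1 : q i = v
      · have h2 : ¬ q j = v := fun h2 => h (h1.trans h2.symm)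
        simp [h2]
      · rw [if_neg h1, zero_mul]
  have hS : ∑ i, ∑ j, c i * (starRingEnd ℂ) (c j) * tau r p ((g j)⁻¹ * g i)
      = (((1 + 1 / m) * ∑ v, ‖C v‖ ^ 2 - 1 / m * ‖∑ v, C v‖ ^ 2 : ℝ) : ℂ) := by
    have h1 : ∀ i j, c i * (starRingEnd ℂ) (c j) * tau r p ((g j)⁻¹ * g i)
        = (1 + 1 / (m : ℂ)) * (c i * (starRingEnd ℂ) (c j) * (if q i = q j then 1 else 0))
          - 1 / (m : ℂ) * (c i * (starRingEnd ℂ) (c j)) := by
      intro i j
      rw [htau]
      ring
    simp_rw [h1, Finset.sum_sub_distrib, ← Finset.mul_sum]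
    have h2 : ∑ i, ∑ j, c i * (starRingEnd ℂ) (c j) = (∑ v, C v) * (starRingEnd ℂ) (∑ v, C v) := by
      rw [hsumC, map_sum, Finset.sum_mul_sum]
    have h3 : ∑ i, ∑ j, c i * (starRingEnd ℂ) (c j) = ∑ i, c i * ∑ j, (starRingEnd ℂ) (c j) := by
      simp_rw [Finset.mul_sum]
    have h4 : ∑ i, ∑ j, c i * (starRingEnd ℂ) (c j) * (if q i = q j then (1 : ℂ) else 0)
      = ∑ v, C v * (starRingEnd ℂ) (C v) := hsq
    rw [h4, ← h3, h2]
    simp_rw [Complex.mul_conj, Complex.normSq_eq_norm_sq]
    push_cast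
    ring
  rw [hS]
  have hcs : ‖∑ v, C v‖ ^ 2 ≤ (p : ℝ) ^ r * ∑ v, ‖C v‖ ^ 2 := by
    rw [← hcard]
    have h5 : ‖∑ v, C v‖ ^ 2 ≤ (∑ v, ‖C v‖) ^ 2 :=
      pow_le_pow_left₀ (norm_nonneg _) (norm_sum_le _ _) 2
    refine h5.trans ?_
    have := sq_sum_le_card_mul_sum_sq (s := (Finset.univ : Finset (Multiplicative (Fin r → ZMod p))))
      (f := fun v => ‖C v‖)
    simpa using this
  have hfinal : 0 ≤ (1 + 1 / m) * ∑ v, ‖C v‖ ^ 2 - 1 / m * ‖∑ v, C v‖ ^ 2 := by
    have h6 : (1 + 1 / m) = 1 / m * (p : ℝ) ^ r := by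
      rw [hm] at *
      field_simp
      ring
    rw [h6, mul_assoc, ← mul_sub]
    apply mul_nonneg (by positivity)
    linarith
  exact_mod_cast hfinal

theorem tau_mem (r p : ℕ) [Fact p.Prime] (hr : 0 < r) : tau r p ∈ invPosDef r := by
  refine ⟨tau_posDef r p hr, ?_, ?_⟩
  · simp [tau]
  · intro α
    funext g
    simp only [Function.comp_apply, tau, red_aut]

/-- Invariance of a member of `invPosDef r` under translations by the kernel. -/
theorem eq_of_red_eq (r p : ℕ) (φ : FreeGroup (Fin r) → ℂ) (hφ : φ ∈ invPosDef r)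
    (hN : ∀ n, red r p n = 1 → φ n + φ n⁻¹ = 2) (g h : FreeGroup (Fin r))
    (hgh : red r p g = red r p h) : φ g = φ h := by
  have h1 : red r p (h * g⁻¹) = 1 := by
    rw [map_mul, map_inv, hgh, mul_inv_cancel]
  have h2 := posDef_inv hφ.1 hφ.2.1 (h * g⁻¹) (hN _ h1) h
  simpa using h2

/-- The endomorphism `x_i ↦ x_i u`, fixing the other generators. -/
def trv (r : ℕ) (i : Fin r) (u : FreeGroup (Fin r)) : FreeGroup (Fin r) →* FreeGroup (Fin r) :=
  FreeGroup.lift (fun j => if j = i then FreeGroup.of i * u else FreeGroup.of j)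

theorem trv_of_self (r : ℕ) (i : Fin r) (u : FreeGroup (Fin r)) :
    trv r i u (FreeGroup.of i) = FreeGroup.of i * u := by
  simp [trv]

theorem trv_of_ne (r : ℕ) (i j : Fin r) (hj : j ≠ i) (u : FreeGroup (Fin r)) :
    trv r i u (FreeGroup.of j) = FreeGroup.of j := by
  simp [trv, hj]

theorem trv_comp (r : ℕ) (i : Fin r) (u v : FreeGroup (Fin r)) (hu : trv r i v u = u) (x : FreeGroup (Fin r))
    (huv : v * u = 1) :
    trv r i v (trv r i u x) = x := by
  have h : (trv r i v).comp (trv r i u) = MonoidHom.id _ := by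
    apply FreeGroup.ext_hom
    intro a
    by_cases ha : a = i
    · subst ha
      simp only [MonoidHom.comp_apply, trv_of_self, map_mul, hu, MonoidHom.id_apply, mul_assoc,
        huv, mul_one]
    · simp only [MonoidHom.comp_apply, trv_of_ne r i a ha, MonoidHom.id_apply]
  exact DFunLike.congr_fun h x

/-- The automorphism `x_i ↦ x_i u` when `u` is a product of powers of the other generators. -/
theorem exists_aut (r : ℕ) (i : Fin r) (u : FreeGroup (Fin r)) (hu : ∀ w, trv r i w u = u) :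
    ∃ α : FreeGroup (Fin r) ≃* FreeGroup (Fin r), ∀ x, α x = trv r i u x := by
  have hu' : ∀ w, trv r i w u⁻¹ = u⁻¹ := by
    intro w
    rw [map_inv, hu]
  refine ⟨MulEquiv.mk' ⟨trv r i u, trv r i u⁻¹, ?_, ?_⟩
    (fun x y => map_mul (trv r i u) x y), ?_⟩
  · intro x
    exact trv_comp r i u u⁻¹ (hu _) x (by simp)
  · intro x
    exact trv_comp r i u⁻¹ u (hu' _) x (by simp)
  · intro x
    rfl

/-- A product of powers of the generators other than `x_i`. -/
def word (r : ℕ) (i : Fin r) (k : Fin r → ℕ) : FreeGroup (Fin r) :=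
  (List.ofFn (fun j => if j = i then 1 else FreeGroup.of j ^ k j)).prod

theorem trv_word (r : ℕ) (i : Fin r) (k : Fin r → ℕ) (w : FreeGroup (Fin r)) :
    trv r i w (word r i k) = word r i k := by
  unfold word
  rw [map_list_prod, List.map_ofFn]
  congr 2
  funext j
  simp only [Function.comp_apply]
  split_ifs with h
  · simp
  · rw [map_pow, trv_of_ne r i j h]

theorem red_word (r p : ℕ) (i : Fin r) (k : Fin r → ℕ) :
    red r p (word r i k) = Multiplicative.ofAdd (fun j => if j = i then 0 else (k j : ZMod p)) := by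
  unfold word
  rw [map_list_prod, List.map_ofFn, List.prod_ofFn]
  apply Multiplicative.toAdd.injective
  rw [toAdd_prod]
  funext l
  rw [toAdd_ofAdd, Finset.sum_apply]
  rw [Finset.sum_eq_single l]
  · simp only [Function.comp_apply]
    split_ifs with h
    · simp
    · rw [map_pow, red_of]
      simp
  · intro b _ hb
    simp only [Function.comp_apply]
    split_ifs with h
    · simp
    · rw [map_pow, red_of]
      simp [hb.symm]
  · simp

/-- If the `i`-th coordinate of the reduction of `g` is `1`, then `φ g = φ x_i`. -/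
theorem eq_of_coord_one (r p : ℕ) [Fact p.Prime] (φ : FreeGroup (Fin r) → ℂ) (hφ : φ ∈ invPosDef r)
    (hN : ∀ n, red r p n = 1 → φ n + φ n⁻¹ = 2) (g : FreeGroup (Fin r)) (i : Fin r)
    (hi : (red r p g).toAdd i = 1) : φ g = φ (FreeGroup.of i) := by
  have : NeZero p := ⟨(Fact.out : p.Prime).ne_zero⟩
  set k : Fin r → ℕ := fun j => ((red r p g).toAdd j).val with hk
  obtain ⟨α, hα⟩ := exists_aut r i (word r i k) (trv_word r i k)
  have h1 : φ (α (FreeGroup.of i)) = φ (FreeGroup.of i) := congrFun (hφ.2.2 α) _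
  rw [← h1, hα, trv_of_self]
  apply eq_of_red_eq r p φ hφ hN
  rw [map_mul, red_of, red_word]
  apply Multiplicative.toAdd.injective
  funext l
  rw [toAdd_mul, Pi.add_apply, toAdd_ofAdd, toAdd_ofAdd]
  by_cases hl : l = i
  · subst hl
    simp [hi]
  · simp [hl, hk]

/-- All values off the kernel agree. -/
theorem eq_off_kernel (r p : ℕ) [Fact p.Prime] (hr : 2 ≤ r) (φ : FreeGroup (Fin r) → ℂ)
    (hφ : φ ∈ invPosDef r)
    (hN : ∀ n, red r p n = 1 → φ n + φ n⁻¹ = 2) (g : FreeGroup (Fin r))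
    (hg : red r p g ≠ 1) : φ g = φ (FreeGroup.of ⟨0, by omega⟩) := by
  have : NeZero p := ⟨(Fact.out : p.Prime).ne_zero⟩
  -- the values at the generators agree
  have hgen : ∀ j : Fin r, φ (FreeGroup.of j) = φ (FreeGroup.of ⟨0, by omega⟩) := by
    intro j
    by_cases hj : j = ⟨0, by omega⟩
    · rw [hj]
    · have h1 := eq_of_coord_one r p φ hφ hN (FreeGroup.of j * FreeGroup.of ⟨0, by omega⟩) j
        (by rw [map_mul, red_of, red_of, toAdd_mul, Pi.add_apply]; simp [hj])
      have h2 := eq_of_coord_one r p φ hφ hN (FreeGroup.of j * FreeGroup.of ⟨0, by omega⟩)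
        ⟨0, by omega⟩
        (by
          rw [map_mul, red_of, red_of, toAdd_mul, Pi.add_apply, toAdd_ofAdd, toAdd_ofAdd,
            Pi.single_eq_of_ne (Ne.symm hj), Pi.single_eq_same, zero_add])
      rw [← h1, h2]
  -- a nonzero coordinate
  have hex : ∃ i, (red r p g).toAdd i ≠ 0 := by
    by_contra hcon
    push Not at hcon
    apply hg
    apply Multiplicative.toAdd.injective
    funext i
    simpa using hcon i
  obtain ⟨i, hi⟩ := hex
  -- another index
  obtain ⟨j, hj⟩ : ∃ j : Fin r, j ≠ i := by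
    have : Nontrivial (Fin r) := Fin.nontrivial_iff_two_le.mpr hr
    exact exists_ne i
  set a : ℕ := ((1 - (red r p g).toAdd j) / (red r p g).toAdd i).val with ha
  set k : Fin r → ℕ := Pi.single j a with hk
  obtain ⟨α, hα⟩ := exists_aut r i (word r i k) (trv_word r i k)
  have h1 : φ (α g) = φ g := congrFun (hφ.2.2 α) _
  rw [← h1, ← hgen j]
  apply eq_of_coord_one r p φ hφ hN
  -- the `j`-th coordinate of the reduction of `α g`
  have h2 : ∀ x, (red r p (trv r i (word r i k) x)).toAdd j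
      = (red r p x).toAdd j + a * (red r p x).toAdd i := by
    have h3 : (AddMonoidHom.toMultiplicative (Pi.evalAddMonoidHom (fun _ : Fin r => ZMod p) j)).comp
        ((red r p).comp (trv r i (word r i k)))
        = (AddMonoidHom.toMultiplicative (Pi.evalAddMonoidHom (fun _ : Fin r => ZMod p) j
          + (AddMonoidHom.mulLeft (a : ZMod p)).comp
            (Pi.evalAddMonoidHom (fun _ : Fin r => ZMod p) i))).comp (red r p) := by
      apply FreeGroup.ext_hom
      intro l
      apply Multiplicative.toAdd.injective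
      simp only [MonoidHom.comp_apply, AddMonoidHom.toMultiplicative_apply_apply, toAdd_ofAdd,
        AddMonoidHom.add_apply, AddMonoidHom.comp_apply, Pi.evalAddMonoidHom_apply,
        AddMonoidHom.coe_mulLeft]
      by_cases hl : l = i
      · subst hl
        rw [trv_of_self, map_mul, red_word, red_of, toAdd_mul, Pi.add_apply]
        simp [hj, hk]
      · rw [trv_of_ne r i l hl, red_of]
        rw [toAdd_ofAdd, Pi.single_eq_of_ne (Ne.symm hl)]
        simp
    intro x
    have := DFunLike.congr_fun h3 x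
    exact congrArg Multiplicative.toAdd this
  rw [hα, h2, ha, ZMod.natCast_val, ZMod.cast_id]
  field_simp
  ring

/-- The reduction is surjective. -/
theorem red_surjective (r p : ℕ) [Fact p.Prime] (hr : 0 < r) : Function.Surjective (red r p) := by
  have : NeZero p := ⟨(Fact.out : p.Prime).ne_zero⟩
  intro v
  refine ⟨FreeGroup.of ⟨0, hr⟩ ^ (v.toAdd ⟨0, hr⟩).val *
    word r ⟨0, hr⟩ (fun j => (v.toAdd j).val), ?_⟩
  rw [map_mul, map_pow, red_of, red_word]
  apply Multiplicative.toAdd.injective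
  funext l
  rw [toAdd_mul, Pi.add_apply, toAdd_ofAdd, toAdd_pow, Pi.smul_apply, toAdd_ofAdd]
  by_cases hl : l = ⟨0, hr⟩
  · subst hl
    simp
  · simp [hl]

/-- The lower bound for the common value off the kernel. -/
theorem lower_bound (r p : ℕ) [Fact p.Prime] (hr : 2 ≤ r) (φ : FreeGroup (Fin r) → ℂ)
    (hφ : φ ∈ invPosDef r)
    (hN : ∀ n, red r p n = 1 → φ n + φ n⁻¹ = 2) :
    0 ≤ 1 + ((p : ℂ) ^ r - 1) * φ (FreeGroup.of ⟨0, by omega⟩) := by
  classical
  set c := φ (FreeGroup.of ⟨0, by omega⟩) with hc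
  set N := Fintype.card (Multiplicative (Fin r → ZMod p)) with hNdef
  have hNcard : (N : ℂ) = (p : ℂ) ^ r := by
    simp [hNdef, ZMod.card]
  have hNpos : 0 < N := Fintype.card_pos
  let e : Fin N ≃ Multiplicative (Fin r → ZMod p) := (Fintype.equivFin _).symm
  choose sec hsec using red_surjective r p (by omega)
  have h := hφ.1 N (fun i => sec (e i)) (fun _ => 1)
  have hval : ∀ i j, φ ((sec (e j))⁻¹ * sec (e i)) = if i = j then 1 else c := by
    intro i j
    split_ifs with hij
    · rw [hij]; simp [hφ.2.1]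
    · apply eq_off_kernel r p hr φ hφ hN
      rw [map_mul, map_inv, hsec, hsec]
      intro h'
      rw [inv_mul_eq_one] at h'
      exact hij (e.injective h').symm
  simp only [hval, map_one, mul_one, one_mul] at h
  have hsum : ∑ i : Fin N, ∑ j : Fin N, (if i = j then (1 : ℂ) else c)
      = N * (1 + ((p : ℂ) ^ r - 1) * c) := by
    have : ∀ i : Fin N, ∑ j : Fin N, (if i = j then (1 : ℂ) else c) = 1 + ((p : ℂ) ^ r - 1) * c := by
      intro i
      have h2 : ∀ j : Fin N, (if i = j then (1 : ℂ) else c) = c + (if i = j then 1 - c else 0) := by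
        intro j
        split_ifs <;> ring
      simp_rw [h2, Finset.sum_add_distrib]
      simp [hNcard]
      ring
    simp_rw [this]
    simp
    ring
  rw [hsum] at h
  have hN' : (N : ℂ) ≠ 0 := by exact_mod_cast hNpos.ne'
  have hN'' : (0 : ℂ) ≤ (((N : ℝ)⁻¹ : ℝ) : ℂ) := by
    exact_mod_cast inv_nonneg.mpr (Nat.cast_nonneg N)
  have h3 := mul_nonneg hN'' h
  have h4 : (((N : ℝ)⁻¹ : ℝ) : ℂ) * (N * (1 + ((p : ℂ) ^ r - 1) * c))
      = 1 + ((p : ℂ) ^ r - 1) * c := by
    push_cast
    field_simp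
  rwa [h4] at h3

/-- **Main theorem.** For every rank `r ≥ 2` and every prime `p`, the function `tau r p`, equal to
`1` on the kernel of the reduction `F_r → (ℤ/p)^r` and to `-1/(p^r-1)` elsewhere, is an extreme
point of the convex set of normalised positive definite functions on `F_r` invariant under
`Aut(F_r)`; it is not the constant function `1`, and its value at the first generator is
`-1/(p^r-1)`, which is not zero. -/
theorem result (r : ℕ) (hr : 2 ≤ r) (p : ℕ) (hp : p.Prime) :
    tau r p ∈ Set.extremePoints ℝ (invPosDef r) ∧ tau r p ≠ (fun _ => 1) ∧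
      tau r p (FreeGroup.of ⟨0, by omega⟩) = -1 / ((p : ℂ) ^ r - 1) ∧
      tau r p (FreeGroup.of ⟨0, by omega⟩) ≠ 0 := by
  have : Fact p.Prime := ⟨hp⟩
  have hm : (1 : ℝ) < (p : ℝ) ^ r := by
    have : (1 : ℝ) < p := by exact_mod_cast hp.one_lt
    exact one_lt_pow₀ this (by omega)
  have hmC : ((p : ℂ) ^ r - 1) = (((p : ℝ) ^ r - 1 : ℝ) : ℂ) := by push_cast; ring
  have hm0 : ((p : ℂ) ^ r - 1) ≠ 0 := by
    rw [hmC]
    exact_mod_cast (by linarith : (0 : ℝ) < (p : ℝ) ^ r - 1).ne'
  have hred : red r p (FreeGroup.of ⟨0, by omega⟩) ≠ 1 := by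
    rw [red_of]
    intro h
    have h1 := congrArg (fun v : Multiplicative (Fin r → ZMod p) => v.toAdd ⟨0, by omega⟩) h
    simp at h1
  have hval : tau r p (FreeGroup.of ⟨0, by omega⟩) = -1 / ((p : ℂ) ^ r - 1) := by
    unfold tau
    rw [if_neg hred]
  have hne : tau r p (FreeGroup.of ⟨0, by omega⟩) ≠ 0 := by
    rw [hval]
    exact div_ne_zero (by norm_num) hm0
  refine ⟨?_, ?_, hval, hne⟩
  · rw [mem_extremePoints]
    refine ⟨tau_mem r p (by omega), ?_⟩
    intro φ₁ h₁ φ₂ h₂ hseg
    obtain ⟨a, b, ha, hb, hab, hcomb⟩ := hseg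
    have hcomb' : ∀ g, (a : ℂ) * φ₁ g + (b : ℂ) * φ₂ g = tau r p g := by
      intro g
      have := congrFun hcomb g
      simpa using this
    have haC : (0 : ℂ) < a := by exact_mod_cast ha
    have hbC : (0 : ℂ) < b := by exact_mod_cast hb
    have habC : (a : ℂ) + b = 1 := by exact_mod_cast hab
    have hsplit : ∀ X Y : ℂ, 0 ≤ X → 0 ≤ Y → (a : ℂ) * X + b * Y = 0 → X = 0 ∧ Y = 0 := by
      intro X Y hX hY hXY
      have h3 : (a : ℂ) * X = 0 ∧ (b : ℂ) * Y = 0 :=
        (add_eq_zero_iff_of_nonneg (mul_nonneg haC.le hX) (mul_nonneg hbC.le hY)).mp hXY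
      constructor
      · rcases mul_eq_zero.mp h3.1 with h | h
        · exact absurd h haC.ne'
        · exact h
      · rcases mul_eq_zero.mp h3.2 with h | h
        · exact absurd h hbC.ne'
        · exact h
    have hker : ∀ n, red r p n = 1 → φ₁ n + φ₁ n⁻¹ = 2 ∧ φ₂ n + φ₂ n⁻¹ = 2 := by
      intro n hn
      have hn' : red r p n⁻¹ = 1 := by rw [map_inv, hn, inv_one]
      have t1 : tau r p n = 1 := by unfold tau; rw [if_pos hn]
      have t2 : tau r p n⁻¹ = 1 := by unfold tau; rw [if_pos hn']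
      have h4 := hsplit _ _ (posDef_two h₁.1 h₁.2.1 n) (posDef_two h₂.1 h₂.2.1 n) (by
        have e1 := hcomb' n
        have e2 := hcomb' n⁻¹
        rw [t1] at e1
        rw [t2] at e2
        linear_combination 2 * habC - e1 - e2)
      exact ⟨by linear_combination -h4.1, by linear_combination -h4.2⟩
    have hk1 : ∀ n, red r p n = 1 → φ₁ n + φ₁ n⁻¹ = 2 := fun n hn => (hker n hn).1
    have hk2 : ∀ n, red r p n = 1 → φ₂ n + φ₂ n⁻¹ = 2 := fun n hn => (hker n hn).2
    have h5 := hsplit _ _ (lower_bound r p hr φ₁ h₁ hk1) (lower_bound r p hr φ₂ h₂ hk2) (by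
      have e1 := hcomb' (FreeGroup.of ⟨0, by omega⟩)
      rw [hval] at e1
      have e2 : ((p : ℂ) ^ r - 1) * (-1 / ((p : ℂ) ^ r - 1)) = -1 := by field_simp
      rw [← e1] at e2
      linear_combination habC + e2)
    have hfin : ∀ φ : FreeGroup (Fin r) → ℂ, φ ∈ invPosDef r →
        (∀ n, red r p n = 1 → φ n + φ n⁻¹ = 2) →
        1 + ((p : ℂ) ^ r - 1) * φ (FreeGroup.of ⟨0, by omega⟩) = 0 → φ = tau r p := by
      intro φ hφ hk hz
      funext g
      by_cases hg : red r p g = 1
      · have h6 : φ g = φ 1 := eq_of_red_eq r p φ hφ hk g 1 (by rw [hg, map_one])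
        rw [h6, hφ.2.1]
        unfold tau
        rw [if_pos hg]
      · rw [eq_off_kernel r p hr φ hφ hk g hg]
        unfold tau
        rw [if_neg hg]
        field_simp
        linear_combination hz
    exact ⟨hfin φ₁ h₁ hk1 h5.1, hfin φ₂ h₂ hk2 h5.2⟩
  · intro h
    have h1 := congrFun h (FreeGroup.of ⟨0, by omega⟩)
    rw [hval, hmC] at h1
    have h2 : ((-1 / ((p : ℝ) ^ r - 1) : ℝ) : ℂ) = ((1 : ℝ) : ℂ) := by
      push_cast
      push_cast at h1
      exact h1
    have h3 : (-1 / ((p : ℝ) ^ r - 1) : ℝ) = 1 := by exact_mod_cast h2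
    have h4 : (-1 / ((p : ℝ) ^ r - 1) : ℝ) < 0 := by
      apply div_neg_of_neg_of_pos (by norm_num)
      linarith
    linarith

end

end Pool.Agent.Results.MP_4640da_an.ExtremeNonvanishing
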